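import Pool.Agent.H49R2.PC.Defs

/-!
# Approximation of the number of 4-colourings of planar graphs within large factors: definitions

Graphs (`Gr`, `IsPlanar`, `numCol`) and FPRAS (`HasFPRASOn`) are defined in
`Pool/Agent/H49R2/PC/Defs.lean`.
-/

namespace Pool.Agent.Y607.PC

open Pool.Agent.NPC Pool.Agent.H49R2.PC

/-- `Z` approximates `v` within the factor `c`. -/
def Within (c Z v : ℝ) : Prop := v / c ≤ Z ∧ Z ≤ c * v

/-- `f` has a randomised polynomial-time approximation on the class `C` of graphs within the factor
`c n`, where `n` is the number of vertices.  The random bits form a string `r` of length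
`p |G|`, where `|G|` is the length of the code of the graph; the output is the rational number with
numerator `(F (G, r)).1` and denominator `(F (G, r)).2`, computed in time polynomial in the length
of the whole input, including the random bits.  With probability at least `3/4` the output
approximates `f G` within the factor `c n`, for all graphs `G` in `C` with `n ≥ 1` vertices. -/
def HasApproxOn (C : Gr → Prop) (f : Gr → ℕ) (c : ℕ → ℝ) : Prop :=
  ∃ (F : Gr × List Bool → ℕ × ℕ) (A : List Bool → List Bool) (p : Polynomial ℕ),
    PolyTime A ∧ (∀ s, A (bits s) = bits (F s)) ∧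
    ∀ G, C G → 1 ≤ G.1.length → 3 * 2 ^ p.eval (bits G).length ≤
      4 * {r : List Bool | r.length = p.eval (bits G).length ∧
        Within (c G.1.length) (((F (G, r)).1 : ℝ) / (F (G, r)).2) (f G)}.ncard

/-- `f` has a deterministic polynomial-time approximation on the class `C` of graphs within the
factor `c n`, where `n ≥ 1` is the number of vertices. -/
def HasDetApproxOn (C : Gr → Prop) (f : Gr → ℕ) (c : ℕ → ℝ) : Prop :=
  ∃ (F : Gr → ℕ × ℕ) (A : List Bool → List Bool),
    PolyTime A ∧ (∀ G, A (bits G) = bits (F G)) ∧
    ∀ G, C G → 1 ≤ G.1.length →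
      Within (c G.1.length) (((F G).1 : ℝ) / (F G).2) (f G)

/-- The factor `2 ^ (n ^ (1 - δ))`. -/
noncomputable def fac (δ : ℝ) (n : ℕ) : ℝ := 2 ^ ((n : ℝ) ^ (1 - δ))

end Pool.Agent.Y607.PC
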