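import Pool.Agent.H49R2.PC.U1i
import Pool.Agent.H49R2.PC.U2i

/-!
# Counting the 4-colourings of planar graphs: a large gap

The multiplicity parameter `t` of the construction of H49R2 is free here.
-/

set_option autoImplicit false

namespace Pool.Agent.Y607.PC

open Pool.Agent.NPC Pool.Agent.NPC.Cnt Finset Pool.Agent.H49R2.PC

/-- The threshold, for any multiplicity parameter. -/
def Tt (B : List (List Pt)) (t : ℕ) : ℕ :=
  3 ^ (t * (81 * sumD B + 9 * B.length)) * 2 ^ (t * (90 * sumD B - 9 * B.length))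

theorem Tt_pos (B : List (List Pt)) (t : ℕ) : 0 < Tt B t := by
  unfold Tt
  positivity

theorem big (h0a : S_U0a) (h0d : S_U0d) (h1a : S_U1a) (h4 : S_U4) (B : List (List Pt)) (t : ℕ)
    (hB : GoodB B) (hsel : HasSel B) : Tt B t ≤ Zw (latW B t) := by
  obtain ⟨I, hI, hsel⟩ := hsel
  obtain ⟨c, hc, hc1, hc2⟩ := h1a B t hB I hI
  obtain ⟨hw, hE⟩ := h0a B t c hB hc
  obtain ⟨hs, -, hsD⟩ := h0d B hB I hI
  refine le_trans ?_ (U3iaux.le_Zw (h4 B t hB) c)
  rw [hw]
  unfold Tt
  have e1 : 81 * sumD B + 9 * B.length ≤ ((latS B).map (eS B c)).sum := by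
    have h1 : 81 * sumD B + 9 * B.length =
        ((latS B).map (fun s => 81 * dl B s + 9 * (if decide (s ∈ I) then dl B s else 0))).sum := by
      rw [U1iaux.sum_lin, ← U1iaux.sum_filter, hs, U1iaux.sum_ones B _ hsel]
      rfl
    rw [h1]
    refine List.sum_le_sum ?_
    intro s hs'
    by_cases hsI : s ∈ I
    · have h2 : eS B c s = ∑ k ∈ Finset.range 9, (10 * dl B s +
          (if c (cL s) = c (pL s k) then 9 * dl B s else 0)) := by
        refine Finset.sum_congr rfl fun k hk => ?_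
        rw [if_pos (hc1 s hs' hsI k (Finset.mem_range.1 hk)).symm]
      rw [h2, Finset.sum_add_distrib, Finset.sum_const, Finset.card_range, smul_eq_mul]
      simp only [hsI, decide_true, if_true]
      have := Nat.zero_le (∑ k ∈ Finset.range 9, (if c (cL s) = c (pL s k) then 9 * dl B s else 0))
      omega
    · have h2 : eS B c s = ∑ k ∈ Finset.range 9, (0 + 9 * dl B s) := by
        refine Finset.sum_congr rfl fun k hk => ?_
        obtain ⟨g1, g2⟩ := hc2 s hs' hsI k (Finset.mem_range.1 hk)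
        rw [if_pos g1.symm, if_neg (fun g => g2 g.symm)]
      rw [h2, Finset.sum_const, Finset.card_range, smul_eq_mul]
      simp only [hsI, decide_false, Bool.false_eq_true, if_false]
      omega
  exact U1iaux.pow_key t (sumD B) _ _ _ e1 hE (by omega)

theorem num (t : ℕ) (ht : 1 ≤ t) : 4 * 4 ^ t * 4 ^ (t - 1) * 2 ^ (9 * t) ≤ 3 ^ (9 * t) := by
  obtain ⟨s, rfl⟩ := Nat.exists_eq_add_of_le ht
  have e : 1 + s - 1 = s := by omega
  rw [e, pow_mul, pow_mul, pow_add, pow_add, pow_add]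
  norm_num
  have h1 : 4 ^ s * 4 ^ s * 512 ^ s ≤ 19683 ^ s := by
    rw [← mul_pow, ← mul_pow]
    exact Nat.pow_le_pow_left (by norm_num) _
  calc 4 * (4 * 4 ^ s) * 4 ^ s * (512 * 512 ^ s) = 8192 * (4 ^ s * 4 ^ s * 512 ^ s) := by ring
    _ ≤ 19683 * 19683 ^ s := Nat.mul_le_mul (by norm_num) h1

theorem small (hA : S_U0a) (hB : S_U0b) (hC : S_U0c) (hD : S_U0d) (B : List (List Pt)) (t : ℕ)
    (hG : GoodB B) (hS : ¬ HasSel B) (hT : tt B ≤ t) :
    4 * 4 ^ t * Zw (latW B t) ≤ Tt B t := by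
  have ht : 1 ≤ t := by
    have : 1 ≤ tt B := by unfold tt; omega
    omega
  have hBl : B.length ≤ sumD B := (hD B hG ∅ (by simp)).2.2
  have hB1 : 1 ≤ B.length := by
    by_contra hcon
    have : B = [] := List.length_eq_zero_iff.1 (by omega)
    subst this
    exact hS ⟨∅, by simp, by simp⟩
  have hw : ∀ c : {v // v ∈ (latW B t).1} → Fin 4,
      wcol (latW B t) (ext (latW B t).1 c) ≤
        3 ^ (t * (81 * sumD B + 9 * B.length - 9)) *
          2 ^ (t * (171 * sumD B - (81 * sumD B + 9 * B.length - 9))) := by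
    intro c
    by_cases hc : ∀ e ∈ (latW B t).2.1,
        ext (latW B t).1 c e.1 ≠ ext (latW B t).1 c e.2
    · rw [(hA B t _ hG hc).1]
      have h1 := U2iaux.main hB hC hD B t hG hS _ hc
      exact U2iaux.pow_mono _ _ _ _ (by omega) (by omega)
    · unfold wcol
      rw [if_neg hc]
      exact Nat.zero_le _
  have hcard : Fintype.card ({v // v ∈ (latW B t).1} → Fin 4) ≤ 4 ^ (t - 1) := by
    rw [Fintype.card_fun, Fintype.card_fin]
    refine Nat.pow_le_pow_right (by norm_num) ?_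
    rw [Fintype.card_of_subtype (latW B t).1.toFinset (by simp)]
    refine (List.toFinset_card_le _).trans ?_
    have h1 : tt B - 1 = ((latS B).flatMap vertsOf).length := by unfold tt; omega
    have h2 : (latW B t).1.length ≤ ((latS B).flatMap vertsOf).length :=
      (List.dedup_sublist _).length_le
    omega
  have hZ : Zw (latW B t) ≤ 4 ^ (t - 1) *
      (3 ^ (t * (81 * sumD B + 9 * B.length - 9)) *
          2 ^ (t * (171 * sumD B - (81 * sumD B + 9 * B.length - 9)))) := by
    unfold Zw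
    refine (Finset.sum_le_card_nsmul _ _ _ fun c _ => hw c).trans ?_
    rw [smul_eq_mul, Finset.card_univ]
    exact Nat.mul_le_mul_right _ hcard
  have e1 : 171 * sumD B - (81 * sumD B + 9 * B.length - 9) = (90 * sumD B - 9 * B.length) + 9 := by
    omega
  have e2 : 81 * sumD B + 9 * B.length = (81 * sumD B + 9 * B.length - 9) + 9 := by omega
  rw [e1] at hZ
  unfold Tt
  rw [e2]
  generalize 81 * sumD B + 9 * B.length - 9 = x at *
  generalize 90 * sumD B - 9 * B.length = y at *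
  have hn := num t ht
  calc 4 * 4 ^ t * Zw (latW B t) ≤
        4 * 4 ^ t * (4 ^ (t - 1) * (3 ^ (t * x) * 2 ^ (t * (y + 9)))) :=
        Nat.mul_le_mul_left _ hZ
    _ = (4 * 4 ^ t * 4 ^ (t - 1) * 2 ^ (9 * t)) * (3 ^ (t * x) * 2 ^ (t * y)) := by
        rw [mul_add t y 9, pow_add, mul_comm t 9]
        ring
    _ ≤ 3 ^ (9 * t) * (3 ^ (t * x) * 2 ^ (t * y)) := Nat.mul_le_mul_right _ hn
    _ = 3 ^ (t * (x + 9)) * 2 ^ (t * y) := by
        rw [mul_add t x 9, pow_add 3, mul_comm t 9]
        ring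

/-! ### The number of vertices -/

theorem sum_spokes (B : List (List Pt)) (t : ℕ) (s : Pt) :
    ((spokesOf B t s).map (fun e => e.2)).sum = 171 * (t * dl B s) := by
  simp only [spokesOf, List.range_succ, List.range_zero, List.nil_append, List.flatMap_append,
    List.flatMap_cons, List.flatMap_nil, List.append_nil, List.map_append, List.map_cons,
    List.map_nil, List.sum_append, List.sum_cons, List.sum_nil]
  ring

theorem sum_all (B : List (List Pt)) (t : ℕ) (L : List Pt) :
    ((L.flatMap (spokesOf B t)).map (fun e => e.2)).sum = 171 * (t * (L.map (dl B)).sum) := by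
  induction L with
  | nil => simp
  | cons s L ih =>
    rw [List.flatMap_cons, List.map_append, List.sum_append, ih, sum_spokes, List.map_cons,
      List.sum_cons]
    ring

theorem len_thick (B : List (List Pt)) (t : ℕ) :
    (thick (latW B t)).1.length ≤ tt B + 171 * (t * sumD B) := by
  have h1 : (thick (latW B t)).1.length =
      (latW B t).1.length + ((latW B t).2.2.map (fun e => e.2)).sum := by
    simp only [thick, List.length_append, List.length_map, List.length_flatMap, List.length_range]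
  have h2 : (latW B t).1.length ≤ ((latS B).flatMap vertsOf).length :=
    (List.dedup_sublist _).length_le
  have h3 : ((latW B t).2.2.map (fun e => e.2)).sum = 171 * (t * sumD B) := sum_all B t (latS B)
  rw [h1, h3]
  unfold tt
  omega

/-- The multiplicity parameter: a large power. -/
def tK (K : ℕ) (B : List (List Pt)) : ℕ := (172 * tt B * (sumD B + 1)) ^ (K + 1)

theorem one_le_tt (B : List (List Pt)) : 1 ≤ tt B := by unfold tt; omega

theorem tt_le_tK (K : ℕ) (B : List (List Pt)) : tt B ≤ tK K B := by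
  have h1 := one_le_tt B
  have h2 : tt B ≤ 172 * tt B * (sumD B + 1) := by nlinarith [Nat.zero_le (tt B * sumD B)]
  unfold tK
  calc tt B ≤ 172 * tt B * (sumD B + 1) := h2
    _ = (172 * tt B * (sumD B + 1)) ^ 1 := (pow_one _).symm
    _ ≤ _ := Nat.pow_le_pow_right (by omega) (by omega)

theorem len_le (K : ℕ) (B : List (List Pt)) :
    (thick (latW B (tK K B))).1.length ≤ (172 * tt B * (sumD B + 1)) ^ (K + 2) := by
  refine (len_thick B (tK K B)).trans ?_
  have h1 := tt_le_tK K B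
  have h0 := one_le_tt B
  have h2 : (172 * tt B * (sumD B + 1)) ^ (K + 2) =
      tK K B * (172 * tt B * (sumD B + 1)) := by
    unfold tK
    rw [pow_succ _ (K + 1)]
  rw [h2]
  calc tt B + 171 * (tK K B * sumD B) ≤ tK K B * (172 * (sumD B + 1)) := by
        nlinarith [Nat.zero_le (tK K B * sumD B)]
    _ ≤ tK K B * (172 * tt B * (sumD B + 1)) := by
        refine Nat.mul_le_mul_left _ (Nat.mul_le_mul_right _ ?_)
        omega

theorem rp (x δ : ℝ) (K : ℕ) (hx : 0 ≤ x) :
    (x ^ (K + 2)) ^ (1 - δ) = x ^ (((K : ℝ) + 2) * (1 - δ)) := by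
  have h : x ^ (K + 2) = x ^ ((K : ℝ) + 2) := by
    have h1 : ((K : ℝ) + 2) = ((K + 2 : ℕ) : ℝ) := by push_cast; ring
    rw [h1, Real.rpow_natCast]
  rw [h, ← Real.rpow_mul hx]

/-- The factor is at most `2 ^ t`. -/
theorem rpow_le (K : ℕ) (δ : ℝ) (hK : 1 ≤ δ * ((K : ℝ) + 2)) (hδ : δ ≤ 1) (B : List (List Pt))
    (n : ℕ) (hn : n ≤ (172 * tt B * (sumD B + 1)) ^ (K + 2)) :
    (n : ℝ) ^ (1 - δ) ≤ (tK K B : ℝ) := by
  unfold tK
  have h0 : 1 ≤ 172 * tt B * (sumD B + 1) :=
    Nat.mul_pos (Nat.mul_pos (by norm_num) (one_le_tt B)) (Nat.succ_pos _)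
  generalize 172 * tt B * (sumD B + 1) = M at hn h0 ⊢
  have hM1 : (1 : ℝ) ≤ (M : ℝ) := by exact_mod_cast h0
  have h1 : (n : ℝ) ≤ (M : ℝ) ^ (K + 2) := by exact_mod_cast hn
  have h2 : (n : ℝ) ^ (1 - δ) ≤ ((M : ℝ) ^ (K + 2)) ^ (1 - δ) :=
    Real.rpow_le_rpow (Nat.cast_nonneg _) h1 (by linarith)
  rw [rp (M : ℝ) δ K (by linarith)] at h2
  have h3 : (M : ℝ) ^ (((K : ℝ) + 2) * (1 - δ)) ≤ (M : ℝ) ^ ((K : ℝ) + 1) := by
    refine Real.rpow_le_rpow_of_exponent_le hM1 ?_
    nlinarith
  have h4 : (M : ℝ) ^ ((K : ℝ) + 1) = ((M ^ (K + 1) : ℕ) : ℝ) := by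
    have h5 : ((K : ℝ) + 1) = ((K + 1 : ℕ) : ℝ) := by push_cast; ring
    rw [h5, Real.rpow_natCast]
    push_cast
    ring
  rw [h4] at h3
  exact h2.trans h3

end Pool.Agent.Y607.PC
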