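import Pool.Agent.H49R2.PC.V3
import Pool.Agent.H49R2.PC.V4
import Pool.Agent.H49R2.PC.V5
import Pool.Agent.Y607.PC.Gap

/-!
# Counting the 4-colourings of planar graphs: polynomial time, any multiplicity parameter
-/

set_option autoImplicit false

namespace Pool.Agent.Y607.PC

open Pool.Agent.NPC Pool.Agent.NPC.Cnt Finset Pool.Agent.H49R2.PC Pool.Agent.H49R2.PC.V5aux

theorem upoly_sumD : UPoly (fun B : List (List Pt) => sumD B) := by
  obtain ⟨htt, hlat, hdl⟩ := V2_ok
  have hid : NPC.Poly (fun B : List (List Pt) => B) := NPC.Poly.id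
  have hlen : UPoly (fun B : List (List Pt) => B.length) := UPoly.length hid
  have hpm : NPC.Poly (fun B : List (List Pt) => (latS B).map (dl B)) :=
    NPC.Poly.map (F := fun B s => dl B s) hlat hdl
  have hps : NPC.Poly (fun B : List (List Pt) => sumD B) := NPC.Poly.sum hpm
  have hle : ∀ B : List (List Pt), sumD B ≤ (latS B).length * B.length := by
    intro B
    unfold sumD
    have h1 := List.sum_le_card_nsmul ((latS B).map (dl B)) B.length (by
      intro x hx
      rw [List.mem_map] at hx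
      obtain ⟨s, -, rfl⟩ := hx
      exact List.length_filter_le _ _)
    rw [List.length_map, smul_eq_mul] at h1
    exact h1
  exact UPoly.of_le hps (UPoly.mul (UPoly.length hlat) hlen) hle

theorem upoly_tK (K : ℕ) : UPoly (fun B : List (List Pt) => tK K B) := by
  have h1 : UPoly (fun B : List (List Pt) => 172 * tt B * (sumD B + 1)) :=
    UPoly.mul (UPoly.mul (UPoly.const 172) V2_ok.1) (UPoly.add upoly_sumD (UPoly.const 1))
  have h2 := UPoly.eval h1 (Polynomial.X ^ (K + 1))
  have e : (fun B : List (List Pt) =>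
      (Polynomial.X ^ (K + 1) : Polynomial ℕ).eval (172 * tt B * (sumD B + 1))) =
      fun B => tK K B := by
    funext B
    rw [Polynomial.eval_pow, Polynomial.eval_X]
    rfl
  rw [e] at h2
  exact h2

theorem poly_two (K : ℕ) : NPC.Poly (fun B : List (List Pt) => 2 ^ tK K B) :=
  Pool.Agent.H49R2.PY.Y6_ok _ _ _ (NPC.Poly.const 2) (upoly_tK K)

theorem poly_Tt (K : ℕ) : NPC.Poly (fun B : List (List Pt) => Tt B (tK K B)) := by
  have hid : NPC.Poly (fun B : List (List Pt) => B) := NPC.Poly.id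
  have hlen : UPoly (fun B : List (List Pt) => B.length) := UPoly.length hid
  have htt := upoly_tK K
  have he1 : UPoly (fun B : List (List Pt) => tK K B * (81 * sumD B + 9 * B.length)) :=
    UPoly.mul htt (UPoly.add (UPoly.mul (UPoly.const 81) upoly_sumD)
      (UPoly.mul (UPoly.const 9) hlen))
  have he2 : UPoly (fun B : List (List Pt) => tK K B * (90 * sumD B - 9 * B.length)) := by
    have ha : UPoly (fun B : List (List Pt) => 90 * sumD B) := UPoly.mul (UPoly.const 90) upoly_sumD
    have hb : UPoly (fun B : List (List Pt) => 9 * B.length) := UPoly.mul (UPoly.const 9) hlen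
    have hc : UPoly (fun B : List (List Pt) => 90 * sumD B - 9 * B.length) :=
      UPoly.of_le (NPC.Poly.sub (UPoly.toPoly ha) (UPoly.toPoly hb)) ha
        (fun B => Nat.sub_le _ _)
    exact UPoly.mul htt hc
  exact NPC.Poly.mul (Pool.Agent.H49R2.PY.Y6_ok _ _ _ (NPC.Poly.const 3) he1)
    (Pool.Agent.H49R2.PY.Y6_ok _ _ _ (NPC.Poly.const 2) he2)

theorem poly_latW (K : ℕ) : NPC.Poly (fun B : List (List Pt) => latW B (tK K B)) := by
  have h2 := V2_ok
  have hl : NPC.Poly latS := h2.2.1
  have ht : NPC.Poly (fun B : List (List Pt) => tK K B) := (upoly_tK K).toPoly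
  have h1 : NPC.Poly (fun B : List (List Pt) => ((latS B).flatMap vertsOf).dedup) := by
    refine Pool.Agent.H49R2.PY.Y1aux.dedup ?_
    exact NPC.Poly.flatMap (F := fun _ s => vertsOf s) hl
      (V4aux.poly_vertsOf (NPC.Poly.snd NPC.Poly.id))
  have h3 : NPC.Poly (fun B : List (List Pt) =>
      (latS B).flatMap rimOf ++ (latS B).flatMap (chordOf (latS B))) := by
    refine NPC.Poly.append ?_ ?_
    · exact NPC.Poly.flatMap (F := fun _ s => rimOf s) hl
        (V4aux.poly_rimOf (NPC.Poly.snd NPC.Poly.id))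
    · exact NPC.Poly.flatMap (F := fun B s => chordOf (latS B) s) hl
        (V4aux.poly_chordOf (hl.comp (NPC.Poly.fst NPC.Poly.id)) (NPC.Poly.snd NPC.Poly.id))
  have h4 : NPC.Poly (fun B : List (List Pt) => (latS B).flatMap (spokesOf B (tK K B))) :=
    NPC.Poly.flatMap (F := fun B s => spokesOf B (tK K B) s) hl
      (V4aux.poly_spokesOf h2 (NPC.Poly.fst NPC.Poly.id)
        (NPC.Poly.comp ht (NPC.Poly.fst NPC.Poly.id)) (NPC.Poly.snd NPC.Poly.id))
  exact NPC.Poly.pair h1 (NPC.Poly.pair h3 h4)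

/-! ### The thickened graph -/

section

variable (t : List (List Pt) → ℕ)

/-- the bound for the multiplicities -/
def bd (B : List (List Pt)) : ℕ := 10 * B.length * t B

theorem mult_le' (B : List (List Pt)) (s : (ℕ × ℕ) × ℕ) (hs : s ∈ (latW B (t B)).2.2) :
    s.2 ≤ bd t B := by
  unfold latW at hs
  simp only [List.mem_flatMap] at hs
  obtain ⟨x, -, hx⟩ := hs
  unfold spokesOf at hx
  rw [List.mem_flatMap] at hx
  obtain ⟨k, -, hk⟩ := hx
  have hd : dl B x ≤ B.length := List.length_filter_le _ _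
  have h10 : 10 * dl B x * t B ≤ bd t B :=
    Nat.mul_le_mul_right _ (Nat.mul_le_mul_left _ hd)
  have h9 : 9 * dl B x * t B ≤ bd t B :=
    Nat.mul_le_mul_right _ (Nat.mul_le_mul (by norm_num) hd)
  simp only [List.mem_cons, List.not_mem_nil, or_false] at hk
  rcases hk with h | h
  · rw [h]; exact h10
  · rw [h]; exact h9

variable {t}

theorem bd_upoly (h2 : NPC.UPoly (fun B : List (List Pt) => t B)) :
    NPC.UPoly (fun B : List (List Pt) => bd t B) :=
  NPC.UPoly.mul (NPC.UPoly.mul (NPC.UPoly.const 10) (NPC.UPoly.length NPC.Poly.id)) h2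

theorem min_upoly' (h2 : NPC.UPoly (fun B : List (List Pt) => t B)) :
    NPC.UPoly (fun p : List (List Pt) × SE => Min.min p.2.2 (bd t p.1)) := by
  have h1 : NPC.Poly (fun p : List (List Pt) × SE => p.2.2) :=
    NPC.Poly.snd (NPC.Poly.snd NPC.Poly.id)
  have h3 : NPC.UPoly (fun p : List (List Pt) × SE => bd t p.1) :=
    NPC.UPoly.comp (bd_upoly h2) (NPC.Poly.fst NPC.Poly.id)
  exact NPC.UPoly.of_le (NPC.Poly.min h1 h3.toPoly) h3 (fun a => min_le_right _ _)

variable (t)

/-- all the vertices of one soft edge -/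
def GV' (B : List (List Pt)) (s : SE) : List ℕ :=
  (List.range (Min.min s.2 (bd t B))).map (FV (B, s))

/-- all the edges of one soft edge -/
def GE' (B : List (List Pt)) (s : SE) : List (ℕ × ℕ) :=
  (List.range (Min.min s.2 (bd t B))).flatMap (FE (B, s))

variable {t}

theorem GV_poly' (h2 : NPC.UPoly (fun B : List (List Pt) => t B)) :
    NPC.Poly (fun p : List (List Pt) × SE => GV' t p.1 p.2) :=
  NPC.Poly.map (F := FV) (min_upoly' h2).range mid_poly

theorem GE_poly' (h2 : NPC.UPoly (fun B : List (List Pt) => t B)) :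
    NPC.Poly (fun p : List (List Pt) × SE => GE' t p.1 p.2) :=
  NPC.Poly.flatMap (F := FE) (min_upoly' h2).range FE_poly

variable (t)

/-- the graph with bounded multiplicities -/
def thB (W : List (List Pt) → WG) (B : List (List Pt)) : Gr :=
  ((W B).1.map (fun v => 2 * v) ++ (W B).2.2.flatMap (GV' t B),
   (W B).2.1.map (fun e => (2 * e.1, 2 * e.2)) ++ (W B).2.2.flatMap (GE' t B))

variable {t}

theorem thB_poly (h2 : NPC.UPoly (fun B : List (List Pt) => t B)) {W : List (List Pt) → WG}
    (hW : NPC.Poly W) : NPC.Poly (thB t W) := by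
  have h1 : NPC.Poly (fun B => (W B).1) := NPC.Poly.fst hW
  have h3 : NPC.Poly (fun B => (W B).2.1) := NPC.Poly.fst (NPC.Poly.snd hW)
  have h4 : NPC.Poly (fun B => (W B).2.2) := NPC.Poly.snd (NPC.Poly.snd hW)
  exact NPC.Poly.pair
    (NPC.Poly.append (dbl_poly h1) (NPC.Poly.flatMap (F := GV' t) h4 (GV_poly' h2)))
    (NPC.Poly.append (dbl2_poly h3) (NPC.Poly.flatMap (F := GE' t) h4 (GE_poly' h2)))

theorem thB_eq (W : List (List Pt) → WG) (B : List (List Pt))
    (hm : ∀ s ∈ (W B).2.2, s.2 ≤ bd t B) : thB t W B = thick (W B) := by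
  have e1 : (W B).2.2.flatMap (GV' t B) = (W B).2.2.flatMap
      (fun s => (List.range s.2).map (fun i => midL s.1.1 s.1.2 i)) :=
    flatMap_congr' fun s hs => by
      unfold GV' FV
      rw [min_eq_left (hm s hs)]
  have e2 : (W B).2.2.flatMap (GE' t B) = (W B).2.2.flatMap
      (fun s => (List.range s.2).flatMap (fun i =>
        [(2 * s.1.1, midL s.1.1 s.1.2 i), (2 * s.1.2, midL s.1.1 s.1.2 i)])) :=
    flatMap_congr' fun s hs => by
      unfold GE' FE
      rw [min_eq_left (hm s hs)]
  unfold thB thick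
  rw [e1, e2]

end

theorem poly_thick (K : ℕ) : NPC.Poly (fun B : List (List Pt) => thick (latW B (tK K B))) :=
  NPC.Poly.congr (thB_poly (t := fun B => tK K B) (upoly_tK K)
    (W := fun B => latW B (tK K B)) (poly_latW K))
    fun B => thB_eq (fun B => latW B (tK K B)) B (mult_le' (fun B => tK K B) B)

/-- The planar graph of a formula. -/
def gK (K : ℕ) (φ : CNF ℕ) : Gr := thick (latW (blocksOf φ) (tK K (blocksOf φ)))

/-- The threshold of a formula. -/
def TK (K : ℕ) (φ : CNF ℕ) : ℕ := Tt (blocksOf φ) (tK K (blocksOf φ))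

end Pool.Agent.Y607.PC
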