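import Pool.Agent.H49R2.PC.Main
import Pool.Agent.Y607.PC.PT
import Pool.Agent.Y607.PC.Defs

/-!
# Counting the 4-colourings of planar graphs within large factors: the theorem
-/

set_option autoImplicit false

namespace Pool.Agent.Y607.PC

open Pool.Agent.NPC Pool.Agent.NPC.Cnt Finset Pool.Agent.H49R2 Pool.Agent.H49R2.PC
open Pool.Agent.H579R2.Spt (isPre isPre_iff isPre_poly ver ver_iff ver_poly bits_poly InRP)

/-! ### The graph of a formula -/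

theorem isWG (K : ℕ) (φ : CNF ℕ) : IsWG (latW (blocksOf φ) (tK K (blocksOf φ))) :=
  U4_ok _ _ (C1_ok φ)

theorem gK_planar (K : ℕ) (φ : CNF ℕ) : IsPlanar (gK K φ) :=
  ⟨(T1_ok _ (isWG K φ)).1, (T2i_ok T2a_ok) _ (isWG K φ)
    ((U5i_ok U5a_ok U5b_ok) _ _ (C1_ok φ))⟩

theorem numCol_gK (K : ℕ) (φ : CNF ℕ) :
    numCol 4 (gK K φ) = Zw (latW (blocksOf φ) (tK K (blocksOf φ))) := (T1_ok _ (isWG K φ)).2

theorem gK_big (K : ℕ) {φ : CNF ℕ} (h : 0 < satCount φ) : TK K φ ≤ numCol 4 (gK K φ) := by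
  rw [numCol_gK]
  exact big U0a_ok U0d_ok U1a_ok U4_ok _ _ (C1_ok φ) ((C5i_ok C2a_ok C2b_ok C3_ok C4_ok) φ h)

theorem gK_small (K : ℕ) {φ : CNF ℕ} (h : ¬ 0 < satCount φ) :
    4 * 4 ^ tK K (blocksOf φ) * numCol 4 (gK K φ) ≤ TK K φ := by
  rw [numCol_gK]
  exact small U0a_ok U0b_ok U0c_ok U0d_ok _ _ (C1_ok φ) (fun hh => h ((C6i_ok C3_ok) φ hh))
    (tt_le_tK K _)

theorem TK_pos (K : ℕ) (φ : CNF ℕ) : 0 < TK K φ := Tt_pos _ _

theorem fac_pos (δ : ℝ) (n : ℕ) : 0 < fac δ n := Real.rpow_pos_of_pos (by norm_num) _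

theorem fac_le (K : ℕ) (δ : ℝ) (hK : 1 ≤ δ * ((K : ℝ) + 2)) (hδ : δ ≤ 1) (φ : CNF ℕ) :
    fac δ (gK K φ).1.length ≤ 2 ^ tK K (blocksOf φ) := by
  unfold fac
  have h1 := rpow_le K δ hK hδ (blocksOf φ) _ (len_le K (blocksOf φ))
  have h2 : (2 : ℝ) ^ (((gK K φ).1.length : ℝ) ^ (1 - δ)) ≤
      (2 : ℝ) ^ ((tK K (blocksOf φ) : ℕ) : ℝ) :=
    Real.rpow_le_rpow_of_exponent_le (by norm_num) h1
  rw [Real.rpow_natCast] at h2
  exact h2

theorem poly_gK (K : ℕ) : NPC.Poly (gK K) :=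
  NPC.Poly.comp (g := fun B : List (List Pt) => thick (latW B (tK K B))) (poly_thick K) V1_ok

theorem poly_TK (K : ℕ) : NPC.Poly (TK K) :=
  NPC.Poly.comp (g := fun B : List (List Pt) => Tt B (tK K B)) (poly_Tt K) V1_ok

theorem poly_2K (K : ℕ) : NPC.Poly (fun φ : CNF ℕ => 2 ^ tK K (blocksOf φ)) :=
  NPC.Poly.comp (g := fun B : List (List Pt) => 2 ^ tK K B) (poly_two K) V1_ok

/-- Approximations decide satisfiability. -/
theorem decides (K : ℕ) (δ : ℝ) (hK : 1 ≤ δ * ((K : ℝ) + 2)) (hδ : δ ≤ 1) (φ : CNF ℕ) (a b : ℕ)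
    (h : Within (fac δ (gK K φ).1.length) ((a : ℝ) / b) (numCol 4 (gK K φ) : ℕ)) :
    (0 < b ∧ b * TK K φ ≤ 2 ^ tK K (blocksOf φ) * a) ↔ 0 < satCount φ := by
  have hT : (0 : ℝ) < (TK K φ : ℝ) := by exact_mod_cast TK_pos K φ
  have hg := fac_pos δ (gK K φ).1.length
  have hgle := fac_le K δ hK hδ φ
  obtain ⟨h1, h2⟩ := h
  set t := tK K (blocksOf φ)
  set g := fac δ (gK K φ).1.length
  set v : ℝ := ((numCol 4 (gK K φ) : ℕ) : ℝ) with hv
  have hv0 : 0 ≤ v := Nat.cast_nonneg _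
  have h2t : (0 : ℝ) < 2 ^ t := by positivity
  constructor
  · rintro ⟨hb, hba⟩
    by_contra hs
    have h3 : 4 * 4 ^ t * v ≤ (TK K φ : ℝ) := by
      have := gK_small K hs
      rw [hv]
      exact_mod_cast this
    have hb' : (0 : ℝ) < b := by exact_mod_cast hb
    have h4 : (b : ℝ) * TK K φ ≤ 2 ^ t * a := by exact_mod_cast hba
    have h5 : (TK K φ : ℝ) ≤ 2 ^ t * ((a : ℝ) / b) := by
      rw [mul_div_assoc', le_div_iff₀ hb']
      linarith
    have h6 : (a : ℝ) / b ≤ 2 ^ t * v := h2.trans (mul_le_mul_of_nonneg_right hgle hv0)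
    have h7 : (2 : ℝ) ^ t * ((a : ℝ) / b) ≤ 4 ^ t * v := by
      calc (2 : ℝ) ^ t * ((a : ℝ) / b) ≤ 2 ^ t * (2 ^ t * v) :=
            mul_le_mul_of_nonneg_left h6 h2t.le
        _ = 4 ^ t * v := by
            rw [← mul_assoc, ← mul_pow]
            norm_num
    have h8 : 0 ≤ (4 : ℝ) ^ t * v := by positivity
    nlinarith
  · intro hs
    have h3 : (TK K φ : ℝ) ≤ v := by
      rw [hv]
      exact_mod_cast gK_big K hs
    have hv1 : 0 < v := lt_of_lt_of_le hT h3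
    have hb : 0 < b := by
      rcases Nat.eq_zero_or_pos b with hb | hb
      · subst hb
        simp only [Nat.cast_zero, div_zero] at h1
        have : 0 < v / g := div_pos hv1 hg
        linarith
      · exact hb
    have hb' : (0 : ℝ) < b := by exact_mod_cast hb
    refine ⟨hb, ?_⟩
    have h5 : (TK K φ : ℝ) ≤ 2 ^ t * ((a : ℝ) / b) := by
      calc (TK K φ : ℝ) ≤ v := h3
        _ = g * (v / g) := by field_simp
        _ ≤ 2 ^ t * ((a : ℝ) / b) :=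
            mul_le_mul hgle h1 (div_nonneg hv0 hg.le) h2t.le
    rw [mul_div_assoc', le_div_iff₀ hb'] at h5
    have h6 : (b : ℝ) * TK K φ ≤ 2 ^ t * a := by linarith
    exact_mod_cast h6

end Pool.Agent.Y607.PC
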