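import Pool.Agent.Y607.PC.Main

/-!
# Counting the 4-colourings of planar graphs within large factors: consequences
-/

set_option autoImplicit false

namespace Pool.Agent.Y607.PC

open Pool.Agent.NPC Pool.Agent.NPC.Cnt Finset Pool.Agent.H49R2 Pool.Agent.H49R2.PC
open Pool.Agent.H579R2.Spt (isPre isPre_iff isPre_poly ver ver_iff ver_poly bits_poly InRP)

/-! ### Formulas whose graph is empty -/

theorem sat_of_empty (K : ℕ) (φ : CNF ℕ) (h : (gK K φ).1.length = 0) : 0 < satCount φ := by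
  have h1 : latS (blocksOf φ) = [] := by
    by_contra hne
    obtain ⟨s, hs⟩ := List.exists_mem_of_ne_nil _ hne
    have h2 : 2 * cL s ∈ (gK K φ).1 := by
      unfold gK thick
      exact List.mem_append_left _ (List.mem_map.2 ⟨cL s, List.mem_dedup.2
        (List.mem_flatMap.2 ⟨s, hs, List.mem_cons_self⟩), rfl⟩)
    rw [List.length_eq_zero_iff] at h
    rw [h] at h2
    simp at h2
  have h2 : blocksOf φ = [] := by
    by_contra hne
    obtain ⟨b, hb⟩ := List.exists_mem_of_ne_nil _ hne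
    obtain ⟨s, hs⟩ := List.exists_mem_of_ne_nil b (C1_ok φ b hb).1
    have h3 := U0daux.mem_latS hb hs
    rw [h1] at h3
    simp at h3
  refine (C6i_ok C3_ok) φ ⟨∅, by simp, ?_⟩
  rw [h2]
  simp

/-! ### The Cook-Levin theorem -/

theorem cook (L : Set (List Bool)) (hL : InNP L) :
    ∃ G : List Bool → CNF ℕ, NPC.Poly G ∧ ∀ x, x ∈ L ↔ 0 < satCount (G x) := by
  obtain ⟨V0, p, hV0, hL⟩ := hL
  set R : List Bool → List Bool → Bool := fun a c => ver V0 p a c with hRdef
  have hR : NPC.Poly (fun x : List Bool × List Bool => R x.1 x.2) := ver_poly hV0 p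
  have hS : SharpP (strFn fun a : List Bool => Nat.card {c : List Bool // R a c = true}) := by
    refine sharpP_typed R hR (Polynomial.C 4 * p + 1) ?_
    intro x c hc
    simp only [hRdef] at hc
    have h2 : c.length ≤ p.eval x.length := (ver_iff.1 hc).1
    have h3 := sz_listBool_le c
    have h4 : p.eval x.length ≤ p.eval (sz x) := eval_mono p (by
      have := length_lt_sz x
      omega)
    simp only [Polynomial.eval_add, Polynomial.eval_mul, Polynomial.eval_C, Polynomial.eval_one]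
    omega
  obtain ⟨V, pf, hV, hVf⟩ := hS
  obtain ⟨G, hG, hGf⟩ := parsimonious hV pf
  have hGp : NPC.Poly G := PC.comp hG pc_raw
  refine ⟨fun x => G (bits x), hGp.comp bits_poly, ?_⟩
  intro x
  have h1 : satCount (G (bits x)) = Nat.card {c : List Bool // R x c = true} := by
    rw [hGf, ← hVf, strFn_bits]
  show x ∈ L ↔ 0 < satCount (G (bits x))
  rw [h1]
  have hfin : Finite {c : List Bool // R x c = true} := by
    refine Set.Finite.to_subtype ?_
    refine (List.finite_length_le Bool (p.eval x.length)).subset fun w hw => ?_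
    exact (ver_iff.1 hw).1
  rw [Nat.card_pos_iff, hL]
  constructor
  · rintro ⟨w, h2, h3⟩
    exact ⟨⟨w, ver_iff.2 ⟨h2, h3⟩⟩, hfin⟩
  · rintro ⟨⟨w, h2⟩, _⟩
    exact ⟨w, ver_iff.1 h2⟩

theorem exK (δ : ℝ) (h0 : 0 < δ) : ∃ K : ℕ, 1 ≤ δ * ((K : ℝ) + 2) := by
  obtain ⟨K, hK⟩ := exists_nat_ge (1 / δ)
  refine ⟨K, ?_⟩
  have h1 : 1 ≤ δ * K := by
    have h2 := mul_le_mul_of_nonneg_left hK h0.le
    rwa [mul_one_div, div_self h0.ne'] at h2
  nlinarith

/-- The reduction with a gap. -/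
theorem gap (δ : ℝ) (h0 : 0 < δ) (h1 : δ ≤ 1) (L : Set (List Bool)) (hL : InNP L) :
    ∃ (g : List Bool → Gr) (T : List Bool → ℕ), PolyTime (fun x => bits (g x)) ∧
      PolyTime (fun x => bits (T x)) ∧ ∀ x, IsPlanar (g x) ∧ (x ∈ L → T x ≤ numCol 4 (g x)) ∧
        (x ∉ L → fac δ (g x).1.length * numCol 4 (g x) < T x) := by
  obtain ⟨K, hK⟩ := exK δ h0
  obtain ⟨G, hG, hGL⟩ := cook L hL
  refine ⟨fun x => gK K (G x), fun x => TK K (G x), polyTime_bits ((poly_gK K).comp hG),
    polyTime_bits ((poly_TK K).comp hG), fun x => ⟨gK_planar K _, fun hx => ?_, fun hx => ?_⟩⟩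
  · exact gK_big K ((hGL x).1 hx)
  · have h2 := gK_small K (fun h => hx ((hGL x).2 h))
    have h3 := fac_le K δ hK h1 (G x)
    have hT : (0 : ℝ) < (TK K (G x) : ℝ) := by exact_mod_cast TK_pos K (G x)
    have h4 : 4 * 4 ^ tK K (blocksOf (G x)) * ((numCol 4 (gK K (G x)) : ℕ) : ℝ) ≤
        (TK K (G x) : ℝ) := by exact_mod_cast h2
    have h5 : (2 : ℝ) ^ tK K (blocksOf (G x)) ≤ 4 ^ tK K (blocksOf (G x)) :=
      pow_le_pow_left₀ (by norm_num) (by norm_num) _
    have h6 : (0 : ℝ) ≤ ((numCol 4 (gK K (G x)) : ℕ) : ℝ) := Nat.cast_nonneg _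
    have h7 := mul_le_mul_of_nonneg_right (h3.trans h5) h6
    have h8 : (0 : ℝ) ≤ 4 ^ tK K (blocksOf (G x)) * ((numCol 4 (gK K (G x)) : ℕ) : ℝ) := by
      positivity
    show fac δ (gK K (G x)).1.length * ((numCol 4 (gK K (G x)) : ℕ) : ℝ) < (TK K (G x) : ℝ)
    linarith

/-! ### The randomised test -/

open Pool.Agent.H49R2.PY.R1aux in
theorem randSat' (K : ℕ) (δ : ℝ) (hK : 1 ≤ δ * ((K : ℝ) + 2)) (hδ : δ ≤ 1)
    (hF : HasApproxOn IsPlanar (numCol 4) (fac δ)) : Pool.Agent.H49R2.PY.RandSat0 := by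
  obtain ⟨F, A, p, hA, hAF, hF⟩ := hF
  have hFp : NPC.Poly F := poly_of_machine hA hAF (0, 0)
  have hg : NPC.Poly (gK K) := poly_gK K
  have hbits : NPC.Poly (fun φ : CNF ℕ => bits (gK K φ)) := bits_poly.comp hg
  let LL : CNF ℕ → ℕ := fun φ => p.eval (bits (gK K φ)).length
  have hLL : UPoly LL := (UPoly.length hbits).eval p
  let coins : CNF ℕ × List Bool → List Bool := fun s => s.2.take (LL s.1)
  have hcoins : NPC.Poly coins := Pool.Agent.H579R2.Spt.take_poly' (NPC.Poly.snd NPC.Poly.id)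
    (hLL.comp (NPC.Poly.fst NPC.Poly.id)).toPoly
  let ab : CNF ℕ × List Bool → ℕ × ℕ := fun s => F (gK K s.1, coins s)
  have hab : NPC.Poly ab := hFp.comp (NPC.Poly.pair (hg.comp (NPC.Poly.fst NPC.Poly.id)) hcoins)
  let D : CNF ℕ × List Bool → Bool := fun s =>
    decide ((gK K s.1).1.length = 0) || (decide (0 < (ab s).2) &&
      decide ((ab s).2 * TK K s.1 ≤ 2 ^ tK K (blocksOf s.1) * (ab s).1))
  have hTh : NPC.Poly (fun s : CNF ℕ × List Bool => TK K s.1) :=
    (poly_TK K).comp (NPC.Poly.fst NPC.Poly.id)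
  have h2t : NPC.Poly (fun s : CNF ℕ × List Bool => 2 ^ tK K (blocksOf s.1)) :=
    (poly_2K K).comp (NPC.Poly.fst NPC.Poly.id)
  have hlen : NPC.Poly (fun s : CNF ℕ × List Bool => (gK K s.1).1.length) :=
    NPC.Poly.length (NPC.Poly.fst (hg.comp (NPC.Poly.fst NPC.Poly.id)))
  have hD : NPC.Poly D := NPC.Poly.or (NPC.Poly.decide_eq hlen (NPC.Poly.const 0))
    (NPC.Poly.and
    (NPC.Poly.decide_lt (NPC.Poly.const 0) (NPC.Poly.snd hab))
    (NPC.Poly.decide_le (NPC.Poly.mul (NPC.Poly.snd hab) hTh)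
      (NPC.Poly.mul h2t (NPC.Poly.fst hab))))
  refine ⟨D, LL, hD, hLL, ?_⟩
  intro φ R hR
  by_cases hn : (gK K φ).1.length = 0
  · have hs := sat_of_empty K φ hn
    have h0 : {r : List Bool | r.length = R ∧ ¬ (D (φ, r) = true ↔ 0 < satCount φ)} = ∅ := by
      ext r
      simp only [Set.mem_setOf_eq, Set.mem_empty_iff_false, iff_false, not_and, not_not]
      intro _
      have : D (φ, r) = true := by
        show (decide ((gK K φ).1.length = 0) || _) = true
        rw [hn]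
        simp
      exact ⟨fun _ => hs, fun _ => this⟩
    rw [h0, Set.ncard_empty]
    simp
  · refine count (a := 0) (R := R) (fun _ => True) (fun _ => LL φ)
      (fun _ s => Within (fac δ (gK K φ).1.length)
        (((F (gK K φ, s)).1 : ℝ) / (F (gK K φ, s)).2) (numCol 4 (gK K φ)))
      (fun r => ¬ (D (φ, r) = true ↔ 0 < satCount φ)) (Nat.zero_le _) ?_ ?_ ?_ ?_
    · have : {r : List Bool | r.length = 0 ∧ True} = {[]} := by
        ext r
        simp
      rw [this, Set.ncard_singleton]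
      norm_num
    · intro r1 _
      show 0 + LL φ ≤ R
      rw [zero_add]
      exact hR
    · intro r1 _
      exact hF (gK K φ) (gK_planar K φ) (Nat.one_le_iff_ne_zero.2 hn)
    · intro r hr _ hg2
      rw [not_not]
      rw [List.drop_zero] at hg2
      have h1 := decides K δ hK hδ φ _ _ hg2
      rw [← h1]
      show (decide ((gK K φ).1.length = 0) || (decide (0 < (ab (φ, r)).2) &&
        decide ((ab (φ, r)).2 * TK K φ ≤ 2 ^ tK K (blocksOf φ) * (ab (φ, r)).1))) = true ↔ _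
      rw [decide_eq_false hn, Bool.false_or, Bool.and_eq_true, decide_eq_true_iff,
        decide_eq_true_iff]

theorem rp_eq_np (δ : ℝ) (h0 : 0 < δ) (h1 : δ ≤ 1)
    (hF : HasApproxOn IsPlanar (numCol 4) (fac δ)) :
    ∀ L : Set (List Bool), InRP L ↔ InNP L := by
  obtain ⟨K, hK⟩ := exK δ h0
  exact fun L => ⟨fun hL => hL.inNP,
    fun hL => PY.R3_ok (PY.R2_ok (randSat' K δ hK h1 hF)) L hL⟩

/-! ### Deterministic approximation -/

open Pool.Agent.H49R2.PY.R1aux in
theorem p_eq_np (δ : ℝ) (h0 : 0 < δ) (h1 : δ ≤ 1)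
    (hF : HasDetApproxOn IsPlanar (numCol 4) (fac δ)) :
    ∀ L : Set (List Bool), InP L ↔ InNP L := by
  obtain ⟨K, hK⟩ := exK δ h0
  refine fun L => ⟨fun hL => hL.inNP, fun hL => ?_⟩
  obtain ⟨G, hG, hGL⟩ := cook L hL
  obtain ⟨F, A, hA, hAF, hF⟩ := hF
  have hFp : NPC.Poly F := poly_of_machine hA hAF (0, 0)
  have hg : NPC.Poly (fun x => gK K (G x)) := (poly_gK K).comp hG
  have hab : NPC.Poly (fun x => F (gK K (G x))) := hFp.comp hg
  let D : List Bool → Bool := fun x =>
    decide ((gK K (G x)).1.length = 0) || (decide (0 < (F (gK K (G x))).2) &&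
      decide ((F (gK K (G x))).2 * TK K (G x) ≤
        2 ^ tK K (blocksOf (G x)) * (F (gK K (G x))).1))
  have hD : NPC.Poly D := NPC.Poly.or
    (NPC.Poly.decide_eq (NPC.Poly.length (NPC.Poly.fst hg)) (NPC.Poly.const 0))
    (NPC.Poly.and
    (NPC.Poly.decide_lt (NPC.Poly.const 0) (NPC.Poly.snd hab))
    (NPC.Poly.decide_le (NPC.Poly.mul (NPC.Poly.snd hab) ((poly_TK K).comp hG))
      (NPC.Poly.mul ((poly_2K K).comp hG) (NPC.Poly.fst hab))))
  refine ⟨fun x => [D x], NPC.polyTime_of_poly hD, fun x => ?_⟩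
  rw [hGL x]
  have e : ([D x] = [true]) ↔ D x = true := by simp
  rw [e]
  by_cases hn : (gK K (G x)).1.length = 0
  · have hs := sat_of_empty K (G x) hn
    have : D x = true := by
      show (decide ((gK K (G x)).1.length = 0) || _) = true
      rw [hn]
      simp
    exact ⟨fun _ => this, fun _ => hs⟩
  · have h2 := decides K δ hK h1 (G x) _ _
      (hF (gK K (G x)) (gK_planar K (G x)) (Nat.one_le_iff_ne_zero.2 hn))
    rw [← h2]
    show _ ↔ (decide ((gK K (G x)).1.length = 0) || (decide (0 < (F (gK K (G x))).2) &&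
      decide ((F (gK K (G x))).2 * TK K (G x) ≤
        2 ^ tK K (blocksOf (G x)) * (F (gK K (G x))).1))) = true
    rw [decide_eq_false hn, Bool.false_or, Bool.and_eq_true, decide_eq_true_iff,
      decide_eq_true_iff]

/-! ### An FPRAS is an approximation within a large factor -/

theorem two_le_fac (δ : ℝ) (h1 : δ ≤ 1) (n : ℕ) (hn : 1 ≤ n) : 2 ≤ fac δ n := by
  unfold fac
  have h2 : (1 : ℝ) ≤ (n : ℝ) ^ (1 - δ) :=
    Real.one_le_rpow (by exact_mod_cast hn) (by linarith)
  calc (2 : ℝ) = 2 ^ (1 : ℝ) := (Real.rpow_one 2).symm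
    _ ≤ 2 ^ ((n : ℝ) ^ (1 - δ)) := Real.rpow_le_rpow_of_exponent_le (by norm_num) h2

open Pool.Agent.H49R2.PY.R1aux in
theorem of_fpras (δ : ℝ) (h1 : δ ≤ 1) (C : Gr → Prop) (f : Gr → ℕ) (h : HasFPRASOn C f) :
    HasApproxOn C f (fac δ) := by
  obtain ⟨F, A, p, hA, hAF, hF⟩ := h
  have hFp : NPC.Poly F := poly_of_machine hA hAF (0, 0)
  have hF' : NPC.Poly (fun s : Gr × List Bool => F (s.1, 2, s.2)) :=
    hFp.comp (NPC.Poly.pair (NPC.Poly.fst NPC.Poly.id)
      (NPC.Poly.pair (NPC.Poly.const 2) (NPC.Poly.snd NPC.Poly.id)))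
  have hA' : NPC.Poly (fun x : List Bool =>
      F (((NPC.unbits (Gr × List Bool) x).getD (([], []), [])).1, 2,
        ((NPC.unbits (Gr × List Bool) x).getD (([], []), [])).2)) :=
    hF'.comp (NPC.Poly.optGetD NPC.poly_unbits (NPC.Poly.const (([], []), [])))
  refine ⟨fun s => F (s.1, 2, s.2), _, p.comp (Polynomial.X + 2), polyTime_bits hA',
    fun s => ?_, fun G hG hn => ?_⟩
  · simp only [NPC.unbits_bits, Option.getD_some]
  · have h2 := hF G hG 2 le_rfl
    have e : (p.comp (Polynomial.X + 2)).eval (bits G).length = p.eval ((bits G).length + 2) := by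
      simp [Polynomial.eval_comp]
    rw [e]
    refine h2.trans (Nat.mul_le_mul_left _ (Set.ncard_le_ncard ?_ ?_))
    · rintro r ⟨hr, h3, h4⟩
      refine ⟨hr, ?_⟩
      have h5 := two_le_fac δ h1 _ hn
      have h6 : (0 : ℝ) ≤ (f G : ℝ) := Nat.cast_nonneg _
      push_cast at h3 h4
      constructor
      · rw [div_le_iff₀ (by linarith)]
        have h7 : (f G : ℝ) / 2 ≤ ((F (G, 2, r)).1 : ℝ) / (F (G, 2, r)).2 := by linarith
        have h8 := mul_le_mul h7 h5 (by norm_num) (by linarith [div_nonneg h6 (by norm_num : (0:ℝ) ≤ 2)])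
        linarith
      · have h7 := mul_le_mul_of_nonneg_right h5 h6
        show ((F (G, 2, r)).1 : ℝ) / (F (G, 2, r)).2 ≤ _
        linarith
    · exact (List.finite_length_eq Bool (p.eval ((bits G).length + 2))).subset
        fun r hr => hr.1

end Pool.Agent.Y607.PC
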